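import Pool.Agent.W236.SC.Defs2

/-!
SC-UNF, part 1: blocks of the unfolding.
-/

set_option autoImplicit false
set_option linter.unusedSectionVars false

namespace Pool.Agent.W193.SC

open Finset
open Pool.Agent.Helper741 Pool.Agent.W236.SC Pool.Agent.W236

variable {B : Type*} [Fintype B] [DecidableEq B] {M : CoxeterMatrix B} {L : ℕ}

lemma adj_iff (a b : B × Idx L) : (unf M L).adj a b = true ↔ (a.1 ≠ b.1 ∧ ∃ j : Fin L,
      M a.1 b.1 = j.1 + 2 ∧
      ((a.2 j).1 + 1 = (b.2 j).1 ∨ (b.2 j).1 + 1 = (a.2 j).1) ∧ ∀ i, i ≠ j → a.2 i = b.2 i) := by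
  simp only [unf, decide_eq_true_eq]

lemma adj_ne {s t : B} {a b : Idx L} (h : (unf M L).adj (s, a) (t, b) = true) : s ≠ t :=
  ((adj_iff (s, a) (t, b)).1 h).1

lemma adj_M {s t : B} {a b : Idx L} (h : (unf M L).adj (s, a) (t, b) = true) : M s t ≠ 2 := by
  obtain ⟨-, j, h1, h2, -⟩ := (adj_iff (s, a) (t, b)).1 h
  intro h3
  simp only at h1 h2
  have h4 : j.1 = 0 := by omega
  have h5 := (a j).2
  have h6 := (b j).2
  omega

lemma adj_self (s : B) (a b : Idx L) : (unf M L).adj (s, a) (s, b) = false := by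
  rw [← Bool.not_eq_true]
  exact fun h => adj_ne h rfl

/-- projection -/
noncomputable def P (x : B × Idx L → ℤ) : B → ℝ := fun s => ∑ a : Idx L, lam a * (x (s, a) : ℝ)

lemma P_single (s : B) (a : Idx L) : P (Pi.single (s, a) 1 : B × Idx L → ℤ) = lam a • ee s := by
  funext t
  simp only [P, Pi.smul_apply, smul_eq_mul, Pi.single_apply]
  by_cases h : t = s
  · subst h
    simp
  · simp [h]

lemma P_mono (hlam : ∀ a : Idx L, 0 < lam a) {x y : B × Idx L → ℤ} (h : x ≤ y) : P x ≤ P y := by
  intro s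
  exact sum_le_sum fun a _ => mul_le_mul_of_nonneg_left (Int.cast_le.2 (h (s, a))) (hlam a).le

lemma P_zero : P (0 : B × Idx L → ℤ) = 0 := by
  funext s
  simp [P]

/-- the neighbour sum -/
def nb (G : Qv.Gph (B × Idx L)) (x : B × Idx L → ℤ) (p : B × Idx L) : ℤ :=
  ∑ t, if G.adj p t then x t else 0

lemma nb_congr {x y : B × Idx L → ℤ} {r : B} (a : Idx L)
    (h : ∀ t b, t ≠ r → x (t, b) = y (t, b)) :
    nb (unf M L) x (r, a) = nb (unf M L) y (r, a) := by
  unfold nb
  refine sum_congr rfl fun p _ => ?_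
  obtain ⟨t, b⟩ := p
  by_cases hh : (unf M L).adj (r, a) (t, b) = true
  · rw [if_pos hh, if_pos hh, h t b (adj_ne hh).symm]
  · rw [if_neg hh, if_neg hh]

/-- **block lemma**, used positions -/
lemma block (e : ℕ → Idx L) (N : ℕ) (he : ∀ c < N, ∀ m < N, e c = e m → c = m)
    (r : B) (x : ℕ → B × Idx L → ℤ) (d : ℕ → ℤ)
    (hx : ∀ m < N, x (m + 1) = Function.update (x m) (r, e m)
      (-(x m (r, e m) - d m) + nb (unf M L) (x m) (r, e m))) :
    ∀ m ≤ N, (∀ t a, t ≠ r → x m (t, a) = x 0 (t, a)) ∧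
      (∀ c < N, x m (r, e c) = if c < m then -(x 0 (r, e c) - d c) + nb (unf M L) (x 0) (r, e c)
        else x 0 (r, e c)) := by
  intro m
  induction m with
  | zero => intro _; exact ⟨fun _ _ _ => rfl, fun c _ => by simp⟩
  | succ m ih =>
    intro hm
    obtain ⟨h1, h2⟩ := ih (by omega)
    rw [hx m (by omega)]
    refine ⟨fun t a ht => ?_, fun c hc => ?_⟩
    · rw [Function.update_of_ne (by intro h; exact ht (congrArg Prod.fst h)), h1 t a ht]
    · by_cases hcm : c = m
      · subst hcm
        rw [Function.update_self, if_pos (by omega), h2 c hc, if_neg (lt_irrefl _),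
          nb_congr (e c) h1]
      · rw [Function.update_of_ne, h2 c hc]
        · by_cases h3 : c < m
          · rw [if_pos h3, if_pos (by omega)]
          · rw [if_neg h3, if_neg (by omega)]
        · intro h
          exact hcm (he c hc m (by omega) (congrArg Prod.snd h))

/-- **block lemma**, skipped positions -/
lemma blockS (e : ℕ → Idx L) (N : ℕ) (r : B) (x : ℕ → B × Idx L → ℤ)
    (hx : ∀ m < N, x (m + 1) = Function.update (x m) (r, e m) 0) :
    ∀ m ≤ N, (∀ t a, t ≠ r → x m (t, a) = x 0 (t, a)) ∧ (∀ c < m, x m (r, e c) = 0) := by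
  intro m
  induction m with
  | zero => intro _; exact ⟨fun _ _ _ => rfl, fun c hc => absurd hc (by omega)⟩
  | succ m ih =>
    intro hm
    obtain ⟨h1, h2⟩ := ih (by omega)
    rw [hx m (by omega)]
    refine ⟨fun t a ht => ?_, fun c hc => ?_⟩
    · rw [Function.update_of_ne (by intro h; exact ht (congrArg Prod.fst h)), h1 t a ht]
    · by_cases h : e c = e m
      · rw [h, Function.update_self]
      · rw [Function.update_of_ne (by intro h'; exact h (congrArg Prod.snd h'))]
        apply h2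
        by_contra hcon
        have : c = m := by omega
        exact h (by rw [this])

lemma coroot_apply (r : B) (y : B → ℝ) : coroot M r y = ∑ j, (-2 * cc M r j) * y j := by
  simp [coroot, LinearMap.sum_apply]

/-- projection of a used block -/
lemma P_block (hlam : ∀ (s t : B) (b : Idx L), s ≠ t →
      (∑ a : Idx L, if (unf M L).adj (s, a) (t, b) then lam a else 0) = 2 * cc M s t * lam b)
    (e : ℕ → Idx L) (N : ℕ) (he : ∀ c < N, ∀ m < N, e c = e m → c = m)
    (hsur : ∀ a, ∃ c < N, e c = a)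
    (hsum : ∀ f : Idx L → ℝ, ∑ a, f a = ∑ c ∈ range N, f (e c))
    (r : B) (x : ℕ → B × Idx L → ℤ) (d : ℕ → ℤ)
    (hx : ∀ m < N, x (m + 1) = Function.update (x m) (r, e m)
      (-(x m (r, e m) - d m) + nb (unf M L) (x m) (r, e m))) :
    P (x N) = sg M r (P (x 0) - (∑ c ∈ range N, lam (e c) * (d c : ℝ)) • ee r) := by
  obtain ⟨h1, h2⟩ := block e N he r x d hx N le_rfl
  set C : ℝ := ∑ c ∈ range N, lam (e c) * (d c : ℝ) with hC
  funext s
  rw [sg_apply]
  by_cases hs : s = r
  · subst hs
    simp only [Pi.sub_apply, Pi.smul_apply, smul_eq_mul, Pi.single_eq_same, mul_one, map_sub,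
      map_smul, coroot_ee, cc_self]
    rw [coroot_apply, ← add_sum_erase univ _ (mem_univ s), cc_self]
    have h3 : P (x N) s = -(P (x 0) s) + C +
        ∑ a : Idx L, lam a * (nb (unf M L) (x 0) (s, a) : ℝ) := by
      simp only [P]
      rw [hsum, hsum (fun a => lam a * (x 0 (s, a) : ℝ)),
        hsum (fun a => lam a * (nb (unf M L) (x 0) (s, a) : ℝ)), hC, ← sum_neg_distrib,
        ← sum_add_distrib, ← sum_add_distrib]
      refine sum_congr rfl fun c hc => ?_
      have hc' : c < N := mem_range.1 hc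
      rw [h2 c hc', if_pos hc']
      push_cast
      ring
    have h4 : ∑ a : Idx L, lam a * (nb (unf M L) (x 0) (s, a) : ℝ) =
        ∑ t ∈ univ.erase s, 2 * cc M s t * P (x 0) t := by
      unfold nb
      push_cast
      simp only [mul_sum]
      rw [sum_comm, Fintype.sum_prod_type, ← add_sum_erase univ _ (mem_univ s)]
      have h5 : ∑ y : Idx L, ∑ x_1 : Idx L, lam x_1 *
          (if (unf M L).adj (s, x_1) (s, y) = true then ((x 0 (s, y) : ℤ) : ℝ) else 0) = 0 := by
        refine sum_eq_zero fun y _ => sum_eq_zero fun z _ => ?_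
        rw [adj_self]
        simp
      rw [h5, zero_add]
      refine sum_congr rfl fun t ht => ?_
      simp only [P]
      rw [mul_sum]
      refine sum_congr rfl fun b _ => ?_
      have h6 := hlam s t b (ne_of_mem_erase ht).symm
      rw [← mul_assoc, ← h6, sum_mul]
      refine sum_congr rfl fun a _ => ?_
      split_ifs
      · rfl
      · simp
    rw [h3, h4]
    have h7 : ∑ t ∈ univ.erase s, 2 * cc M s t * P (x 0) t =
        - ∑ t ∈ univ.erase s, -2 * cc M s t * P (x 0) t := by
      rw [← sum_neg_distrib]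
      exact sum_congr rfl fun t _ => by ring
    rw [h7]
    ring
  · simp only [Pi.sub_apply, Pi.smul_apply, smul_eq_mul, Pi.single_eq_of_ne hs, mul_zero, sub_zero]
    simp only [P]
    exact sum_congr rfl fun a _ => by rw [h1 s a hs]

/-- projection of a skipped block -/
lemma P_blockS (e : ℕ → Idx L) (N : ℕ) (hsur : ∀ a, ∃ c < N, e c = a)
    (r : B) (x : ℕ → B × Idx L → ℤ)
    (hx : ∀ m < N, x (m + 1) = Function.update (x m) (r, e m) 0) :
    P (x N) = P (x 0) - (P (x 0) r) • ee r := by
  obtain ⟨h1, h2⟩ := blockS e N r x hx N le_rfl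
  funext s
  by_cases hs : s = r
  · subst hs
    simp only [Pi.sub_apply, Pi.smul_apply, smul_eq_mul, Pi.single_eq_same, mul_one, sub_self]
    simp only [P]
    refine sum_eq_zero fun a _ => ?_
    obtain ⟨c, hc, rfl⟩ := hsur a
    rw [h2 c hc]
    simp
  · simp only [Pi.sub_apply, Pi.smul_apply, smul_eq_mul, Pi.single_eq_of_ne hs, mul_zero, sub_zero]
    simp only [P]
    exact sum_congr rfl fun a _ => by rw [h1 s a hs]

end Pool.Agent.W193.SC
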