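import Pool.Agent.W193.SC.Blk

/-!
SC-UNF: the Walk Lemma by unfolding.
-/

set_option autoImplicit false
set_option linter.unusedSectionVars false

namespace Pool.Agent.W193.SC

open Finset
open Pool.Agent.Helper741 Pool.Agent.W236.SC Pool.Agent.W236

section words

variable {B : Type*} [Fintype B] [DecidableEq B] {M : CoxeterMatrix B} {L : ℕ}

/-- the unfolded word -/
def qq (q : ℕ → B) (a N : ℕ) (e : ℕ → Idx L) : ℕ → B × Idx L
  | 0 => (q a, fun _ => 0)
  | (m + 1) => (q (a + 1 + m / N), e (m % N))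

/-- the unfolded used set -/
def UU (U : Set ℕ) (a N : ℕ) : Set ℕ := {k | 1 ≤ k ∧ a + 1 + (k - 1) / N ∈ U}

lemma qq_at (q : ℕ → B) (a N : ℕ) (e : ℕ → Idx L) (i m : ℕ) (hm : m < N) :
    qq q a N e (1 + N * i + m) = (q (a + 1 + i), e m) := by
  have h1 : 1 + N * i + m = (N * i + m) + 1 := by ring
  rw [h1, qq, Nat.mul_add_div (by omega), Nat.mul_add_mod, Nat.mod_eq_of_lt hm,
    Nat.div_eq_of_lt hm, add_zero]

lemma UU_at (U : Set ℕ) (a N : ℕ) (i m : ℕ) (hm : m < N) :
    1 + N * i + m ∈ UU U a N ↔ a + 1 + i ∈ U := by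
  have h1 : 1 + N * i + m - 1 = N * i + m := by omega
  show (1 ≤ 1 + N * i + m ∧ _) ↔ _
  rw [h1, Nat.mul_add_div (by omega), Nat.div_eq_of_lt hm, add_zero]
  constructor
  · exact fun h => h.2
  · exact fun h => ⟨by omega, h⟩

lemma sr_eq (x : B × Idx L → ℤ) (p : B × Idx L) :
    (unf M L).sr p x = Function.update x p (-(x p - 0) + nb (unf M L) x p) := by
  rw [sub_zero]
  rfl

lemma sr_sub (x : B × Idx L → ℤ) (p : B × Idx L) (c : ℤ) :
    (unf M L).sr p (x - c • Pi.single p 1) =
      Function.update x p (-(x p - c) + nb (unf M L) x p) := by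
  have h0 : nb (unf M L) (x - c • Pi.single p 1) p = nb (unf M L) x p := by
    obtain ⟨r, a⟩ := p
    apply nb_congr
    intro t b ht
    have : ((t, b) : B × Idx L) ≠ (r, a) := fun h => ht (congrArg Prod.fst h)
    simp [this]
  rw [sr_eq, h0]
  funext y
  by_cases hy : y = p
  · subst hy
    simp
  · simp [hy]

lemma nb_single (r : B) (a b : Idx L) :
    nb (unf M L) (Pi.single (r, b) 1 : B × Idx L → ℤ) (r, a) = 0 := by
  have : nb (unf M L) (Pi.single (r, b) 1 : B × Idx L → ℤ) (r, a) = nb (unf M L) 0 (r, a) := by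
    apply nb_congr
    intro t c ht
    have : ((t, c) : B × Idx L) ≠ (r, b) := fun h => ht (congrArg Prod.fst h)
    simp [this]
  rw [this]
  simp [nb]

lemma sr_single (r : B) {a b : Idx L} (hab : a ≠ b) :
    (unf M L).sr (r, a) (Pi.single (r, b) 1 : B × Idx L → ℤ) = Pi.single (r, b) 1 := by
  rw [sr_eq, nb_single]
  have h : ((r, a) : B × Idx L) ≠ (r, b) := fun h => hab (congrArg Prod.snd h)
  rw [Pi.single_eq_of_ne h]
  funext y
  by_cases hy : y = (r, a)
  · subst hy
    simp [h]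
  · rw [Function.update_of_ne hy]

/-- undoing the beginning of a block -/
lemma inblock (e : ℕ → Idx L) (N : ℕ) (he : ∀ c < N, ∀ m < N, e c = e m → c = m)
    (hsur : ∀ a, ∃ c < N, e c = a) (r : B) (x : ℕ → B × Idx L → ℤ) (c : ℕ) (hc : c < N)
    (hx : ∀ m < c, x (m + 1) = (unf M L).sr (r, e m) (x m))
    (hx1 : x c = Pi.single (r, e c) 1) : x 0 = Pi.single (r, e c) 1 := by
  -- extend `x` beyond `c`
  obtain ⟨y, hy1, hy2⟩ : ∃ y : ℕ → B × Idx L → ℤ, (∀ m ≤ c, y m = x m) ∧
      ∀ m, y (m + 1) = (unf M L).sr (r, e m) (y m) := by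
    refine ⟨fun m => Nat.rec (x 0) (fun m z => (unf M L).sr (r, e m) z) m, ?_, fun m => rfl⟩
    intro m
    induction m with
    | zero => intro _; rfl
    | succ m ih =>
      intro hm
      have h1 := ih (by omega)
      rw [hx m (by omega), ← h1]
  have hb := block e N he r y (fun _ => 0) (fun m hm => by rw [hy2 m, sr_eq]) c hc.le
  obtain ⟨h1, h2⟩ := hb
  rw [hy1 c le_rfl, hy1 0 (by omega), hx1] at h1 h2
  have h3 : ∀ t b, t ≠ r → x 0 (t, b) = 0 := by
    intro t b ht
    rw [← h1 t b ht]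
    exact Pi.single_eq_of_ne (fun h => ht (congrArg Prod.fst h)) _
  have h4 : ∀ a : Idx L, nb (unf M L) (x 0) (r, a) = 0 := by
    intro a
    have : nb (unf M L) (x 0) (r, a) = nb (unf M L) 0 (r, a) :=
      nb_congr a fun t b ht => h3 t b ht
    rw [this]
    simp [nb]
  funext p
  obtain ⟨t, b⟩ := p
  by_cases ht : t = r
  · subst ht
    obtain ⟨m, hm, rfl⟩ := hsur b
    have h5 := h2 m hm
    rw [h4] at h5
    by_cases hmc : m < c
    · rw [if_pos hmc] at h5
      have h6 : ((t, e m) : B × Idx L) ≠ (t, e c) := by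
        intro h
        have := he m hm c hc (congrArg Prod.snd h)
        omega
      rw [Pi.single_eq_of_ne h6] at h5 ⊢
      linarith
    · rw [if_neg hmc] at h5
      exact h5.symm
  · rw [h3 t b ht, Pi.single_eq_of_ne (fun h => ht (congrArg Prod.fst h))]

/-- the end of a block -/
lemma outblock (e : ℕ → Idx L) (N : ℕ) (he : ∀ c < N, ∀ m < N, e c = e m → c = m)
    (r : B) (x : ℕ → B × Idx L → ℤ) (c c1 : ℕ) (hcc : c1 ≤ N)
    (hx : ∀ m < c1, c < m → x (m + 1) = (unf M L).sr (r, e m) (x m))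
    (hx1 : x (c + 1) = Pi.single (r, e c) 1) :
    ∀ m, c < m → m ≤ c1 → x m = Pi.single (r, e c) 1 := by
  intro m
  induction m with
  | zero => intro h; omega
  | succ m ih =>
    intro h1 h2
    by_cases h3 : c < m
    · rw [hx m (by omega) h3, ih h3 (by omega)]
      apply sr_single
      intro h
      have := he m (by omega) c (by omega) h
      omega
    · have : m = c := by omega
      rw [this]
      exact hx1

end words

section

variable {B : Type*} [Fintype B] [DecidableEq B] {M : CoxeterMatrix B} {L : ℕ}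
variable {W : Type*} [Group W] (cs : CoxeterSystem M W)

lemma geo_step (w : W) (r : B) (x : B → ℝ) :
    geo cs (w * cs.simple r)⁻¹ x = sg M r (geo cs w⁻¹ x) := by
  rw [mul_inv_rev, map_mul, cs.inv_simple, geo_simple]
  rfl

/-- evolution through whole blocks -/
lemma evolve
    (hlam : ∀ (s t : B) (b : Idx L), s ≠ t →
      (∑ a : Idx L, if (unf M L).adj (s, a) (t, b) then lam a else 0) = 2 * cc M s t * lam b)
    (e : ℕ → Idx L) (N : ℕ) (he : ∀ c < N, ∀ m < N, e c = e m → c = m)
    (hsur : ∀ a, ∃ c < N, e c = a)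
    (hsum : ∀ f : Idx L → ℝ, ∑ a, f a = ∑ c ∈ range N, f (e c))
    (q : ℕ → B) (U : Set ℕ) (h : ℕ → W) (a b : ℕ)
    (hU : ∀ k, a < k → k < b → k ∈ U → h (k + 1) = h k * cs.simple (q k))
    (hS : ∀ k, a < k → k < b → k ∉ U → h (k + 1) = h k)
    (i0 i1 : ℕ) (hi1 : a + 1 + i1 ≤ b) (Z : ℕ → B × Idx L → ℤ)
    (hZU : ∀ k, 1 + N * i0 ≤ k → k < 1 + N * i1 → k ∈ UU U a N →
      Z (k + 1) = (unf M L).sr (qq q a N e k) (Z k))
    (hZS : ∀ k, 1 + N * i0 ≤ k → k < 1 + N * i1 → k ∉ UU U a N → Z (k + 1) = Z k) :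
    ∀ i, i0 ≤ i → i ≤ i1 → P (Z (1 + N * i)) =
      geo cs (h (a + 1 + i))⁻¹ (geo cs (h (a + 1 + i0)) (P (Z (1 + N * i0)))) := by
  intro i hi
  induction i, hi using Nat.le_induction with
  | base => intro _; rw [geo_inv_apply]
  | succ i hi ih =>
    intro hi2
    have h1 := ih (by omega)
    have hN : N * (i + 1) = N * i + N := by ring
    have hN2 : N * (i + 1) ≤ N * i1 := Nat.mul_le_mul_left N hi2
    have hN3 : N * i0 ≤ N * i := Nat.mul_le_mul_left N hi
    by_cases hk : a + 1 + i ∈ U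
    · have h2 := P_block hlam e N he hsur hsum (q (a + 1 + i)) (fun m => Z (1 + N * i + m))
        (fun _ => 0) (fun m hm => by
          have h3 := hZU (1 + N * i + m) (by omega) (by omega) ((UU_at U a N i m hm).2 hk)
          rw [qq_at q a N e i m hm, sr_eq] at h3
          exact h3)
      simp only [Int.cast_zero, mul_zero, sum_const_zero, zero_smul, sub_zero, add_zero] at h2
      rw [show 1 + N * (i + 1) = 1 + N * i + N by ring, h2, h1,
        show a + 1 + (i + 1) = a + 1 + i + 1 by ring,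
        hU (a + 1 + i) (by omega) (by omega) hk, geo_step]
    · have h2 : ∀ m ≤ N, Z (1 + N * i + m) = Z (1 + N * i) := by
        intro m
        induction m with
        | zero => intro _; rfl
        | succ m ihm =>
          intro hm
          rw [← ihm (by omega)]
          exact hZS (1 + N * i + m) (by omega) (by omega)
            (fun h => hk ((UU_at U a N i m (by omega)).1 h))
      rw [show 1 + N * (i + 1) = 1 + N * i + N by ring, h2 N le_rfl, h1,
        show a + 1 + (i + 1) = a + 1 + i + 1 by ring, hS (a + 1 + i) (by omega) (by omega) hk]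

lemma frm_smul_ee (hB : BaseF cs) (x : ℝ) (r : B) : frm M (x • ee r) (x • ee r) = x * x * 2 := by
  rw [hB.frm_smul, hB.frm_symm, hB.frm_smul, hB.frm_ee, coroot_ee, cc_self]
  ring

lemma pos_eq (hB : BaseF cs) (w : W) (r r' : B) {x y : ℝ} (hx : 0 < x) (hy : 0 < y)
    (h : geo cs w (x • ee r) = y • ee r') : x = y := by
  have h1 := hB.frm_geo w (x • ee r) (x • ee r)
  rw [h, frm_smul_ee cs hB, frm_smul_ee cs hB] at h1
  nlinarith

end

end Pool.Agent.W193.SC
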