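import Pool.Agent.W193.SC.Unf

/-!
SC-UNF: the Walk Lemma by unfolding, final part.
-/

set_option autoImplicit false
set_option linter.unusedSectionVars false

namespace Pool.Agent.W193.SC

open Finset
open Pool.Agent.Helper741 Pool.Agent.W236.SC Pool.Agent.W236

variable {B : Type*} [Fintype B] [DecidableEq B] {M : CoxeterMatrix B}
variable {W : Type*} [Group W] (cs : CoxeterSystem M W)

/-- enumeration of the index set -/
lemma exists_enum (L : ℕ) : ∃ (N : ℕ) (e : ℕ → Idx L), 0 < N ∧
    (∀ c < N, ∀ m < N, e c = e m → c = m) ∧ (∀ a, ∃ c < N, e c = a) ∧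
    (∀ f : Idx L → ℝ, ∑ a, f a = ∑ c ∈ range N, f (e c)) := by
  refine ⟨Fintype.card (Idx L),
    fun c => if h : c < Fintype.card (Idx L) then (Fintype.equivFin (Idx L)).symm ⟨c, h⟩
      else fun _ => 0, ?_, ?_, ?_, ?_⟩
  · exact Fintype.card_pos_iff.2 ⟨fun _ => 0⟩
  · intro c hc m hm h
    simp only [dif_pos hc, dif_pos hm] at h
    have := (Fintype.equivFin (Idx L)).symm.injective h
    exact Fin.mk.inj_iff.1 this
  · intro a
    refine ⟨(Fintype.equivFin (Idx L) a).1, (Fintype.equivFin (Idx L) a).2, ?_⟩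
    exact (dif_pos (Fintype.equivFin (Idx L) a).2).trans (Equiv.symm_apply_apply _ _)
  · intro f
    rw [Finset.sum_range, ← (Fintype.equivFin (Idx L)).symm.sum_comp]
    refine sum_congr rfl fun c _ => ?_
    have h1 : (if h : (c : ℕ) < Fintype.card (Idx L) then
        (Fintype.equivFin (Idx L)).symm ⟨c, h⟩ else fun _ => 0) =
        (Fintype.equivFin (Idx L)).symm c := dif_pos c.2
    exact (congrArg f h1).symm

theorem unf_ (hB : BaseF cs) : S_UNF cs := by
  classical
  intro hM0 _ hLA hSL n q U h a b γ hAlt hab hbn hU hS h0 hne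
  -- the level
  obtain ⟨L, hL⟩ : ∃ L : ℕ, ∀ i j, i ≠ j → 2 ≤ M i j ∧ M i j ≤ L + 1 := by
    refine ⟨∑ i, ∑ j, M i j, fun i j hij => ⟨two_le_of_ne M hij (hM0 i j), ?_⟩⟩
    have h1 : M i j ≤ ∑ j, M i j := single_le_sum (fun _ _ => Nat.zero_le _) (mem_univ j)
    have h2 : ∑ j, M i j ≤ ∑ i, ∑ j, M i j :=
      single_le_sum (f := fun i => ∑ j, M i j) (fun _ _ => Nat.zero_le _) (mem_univ i)
    omega
  obtain ⟨hl1, hl2, hl3⟩ := hLA L hL
  obtain ⟨N, e, hN, he, hsur, hsum⟩ := exists_enum L
  -- decomposition of positions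
  have hpos : ∀ k : ℕ, 1 ≤ k → ∃ i c, c < N ∧ k = 1 + N * i + c := by
    intro k hk
    refine ⟨(k - 1) / N, (k - 1) % N, Nat.mod_lt _ hN, ?_⟩
    have := Nat.div_add_mod (k - 1) N
    omega
  set q' : ℕ → B × Idx L := qq q a N e with hq'
  set U' : Set ℕ := UU U a N with hU'
  set n' : ℕ := 1 + N * (b - a - 1) with hn'
  have hlt : ∀ i c, 1 + N * i + c < n' → i < b - a - 1 := by
    intro i c hic
    by_contra hcon
    push Not at hcon
    have := Nat.mul_le_mul_left N hcon
    omega
  have hlt' : ∀ i c, c < N → i < b - a - 1 → 1 + N * i + c < n' := by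
    intro i c hc hic
    have := Nat.mul_le_mul_left N (Nat.succ_le_of_lt hic)
    have h2 : N * (i + 1) = N * i + N := by ring
    rw [Nat.succ_eq_add_one] at this
    omega
  -- alternation
  have halt : ∀ s t, (unf M L).adj s t = true → ∀ i j, i < j → j < n' → q' i = s → q' j = s →
      ∃ k, i < k ∧ k < j ∧ q' k = t := by
    rintro ⟨s, x⟩ ⟨t, y⟩ hadj i j hij hj hqi hqj
    have hst := adj_ne hadj
    have hM2 := adj_M hadj
    obtain ⟨J, cj, hcj, rfl⟩ := hpos j (by omega)
    rw [hq', qq_at q a N e J cj hcj] at hqj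
    have hJ := hlt J cj hj
    have hqJ : q (a + 1 + J) = s := congrArg Prod.fst hqj
    obtain ⟨cy, hcy, hey⟩ := hsur y
    rcases Nat.eq_zero_or_pos i with hi0 | hi1
    · subst hi0
      have hqa : q a = s := congrArg Prod.fst hqi
      obtain ⟨k, hk1, hk2, hk3⟩ := hAlt s t hst hM2 a (a + 1 + J) (by omega) (by omega) hqa hqJ
      have hkJ : k - a - 1 < J := by omega
      have h5 := Nat.mul_le_mul_left N (Nat.succ_le_of_lt hkJ)
      rw [Nat.succ_eq_add_one, mul_add, mul_one] at h5
      refine ⟨1 + N * (k - a - 1) + cy, by omega, by omega, ?_⟩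
      rw [hq', qq_at q a N e _ cy hcy, hey, show a + 1 + (k - a - 1) = k by omega, hk3]
    · obtain ⟨I, ci, hci, rfl⟩ := hpos i hi1
      rw [hq', qq_at q a N e I ci hci] at hqi
      have hqI : q (a + 1 + I) = s := congrArg Prod.fst hqi
      have hIJ : I < J := by
        rcases lt_trichotomy I J with h1 | h1 | h1
        · exact h1
        · exfalso
          subst h1
          have h2 : e ci = e cj := (congrArg Prod.snd hqi).trans (congrArg Prod.snd hqj).symm
          have := he ci hci cj hcj h2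
          omega
        · exfalso
          have h5 := Nat.mul_le_mul_left N (Nat.succ_le_of_lt h1)
          rw [Nat.succ_eq_add_one, mul_add, mul_one] at h5
          omega
      obtain ⟨k, hk1, hk2, hk3⟩ := hAlt s t hst hM2 (a + 1 + I) (a + 1 + J) (by omega) (by omega)
        hqI hqJ
      have hkJ : k - a - 1 < J := by omega
      have hIk : I < k - a - 1 := by omega
      have h5 := Nat.mul_le_mul_left N (Nat.succ_le_of_lt hkJ)
      have h6 := Nat.mul_le_mul_left N (Nat.succ_le_of_lt hIk)
      rw [Nat.succ_eq_add_one, mul_add, mul_one] at h5 h6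
      refine ⟨1 + N * (k - a - 1) + cy, by omega, by omega, ?_⟩
      rw [hq', qq_at q a N e _ cy hcy, hey, show a + 1 + (k - a - 1) = k by omega, hk3]
  -- the root walk
  obtain ⟨Y, hY0, hYU, hYS⟩ : ∃ Y : ℕ → B × Idx L → ℤ, Y 0 = Pi.single (q' 0) 1 ∧
      (∀ k, k ∈ U' → Y (k + 1) = (unf M L).sr (q' k) (Y k)) ∧
      (∀ k, k ∉ U' → Y (k + 1) = Y k) := by
    refine ⟨fun k => Nat.rec (Pi.single (q' 0) 1)
      (fun k y => if k ∈ U' then (unf M L).sr (q' k) y else y) k, rfl, ?_, ?_⟩
    · intro k hk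
      exact if_pos hk
    · intro k hk
      exact if_neg hk
  have h0U : 0 ∉ U' := fun h => absurd h.1 (by omega)
  have hY1 : Y 1 = Pi.single (q' 0) 1 := by rw [← hY0]; exact hYS 0 h0U
  have hq0 : q' 0 = (q a, fun _ => 0) := rfl
  have hPY1 : P (Y 1) = ee (q a) := by
    rw [hY1, hq0, P_single, hl2, one_smul]
  have hγ : γ = geo cs (h (a + 1)) (ee (q a)) := by rw [← h0, geo_apply_inv]
  have hPY : ∀ i, i ≤ b - a - 1 → P (Y (1 + N * i)) = geo cs (h (a + 1 + i))⁻¹ γ := by
    intro i hi
    have h1 := evolve cs hl3 e N he hsur hsum q U h a b hU hS 0 (b - a - 1) (by omega) Y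
      (fun k _ _ hk => hYU k hk) (fun k _ _ hk => hYS k hk) i (Nat.zero_le _) hi
    rw [h1, mul_zero, add_zero, add_zero, hPY1, hγ]
  have hYne : ∀ k, 1 ≤ k → k < n' → k ∈ U' → Y k ≠ Pi.single (q' k) 1 := by
    intro k hk1 hkn hkU hcon
    obtain ⟨i, c, hc, rfl⟩ := hpos k hk1
    have hi := hlt i c hkn
    rw [hU', UU_at U a N i c hc] at hkU
    rw [hq', qq_at q a N e i c hc] at hcon
    have h1 := inblock e N he hsur (q (a + 1 + i)) (fun m => Y (1 + N * i + m)) c hc
      (fun m hm => by
        have h2 := hYU (1 + N * i + m) ((UU_at U a N i m (by omega)).2 hkU)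
        rw [hq', qq_at q a N e i m (by omega)] at h2
        exact h2) hcon
    have h2 : P (Y (1 + N * i)) = lam (e c) • ee (q (a + 1 + i)) := by
      have h3 : Y (1 + N * i) = Pi.single (q (a + 1 + i), e c) 1 := h1
      rw [h3, P_single]
    rw [hPY i hi.le] at h2
    have h3 : geo cs ((h (a + 1 + i))⁻¹ * h (a + 1)) ((1 : ℝ) • ee (q a)) =
        lam (e c) • ee (q (a + 1 + i)) := by
      rw [map_mul, Module.End.mul_apply, one_smul, ← hγ, h2]
    have h4 := pos_eq cs hB _ _ _ one_pos (hl1 (e c)) h3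
    rw [← h4, one_smul] at h2
    exact hne (a + 1 + i) (by omega) (by omega) hkU h2
  obtain ⟨v', c', hv1, hv2, hv3⟩ := hSL L q' U' n' Y halt hY1
    (fun k _ _ => by
      by_cases hk : k ∈ U'
      · rw [if_pos hk]; exact hYU k hk
      · rw [if_neg hk]; exact hYS k hk) hYne
  -- the coefficients
  set c : ℕ → ℝ := fun k => if a < k ∧ k < b then
      (if k ∈ U then ∑ m ∈ range N, lam (e m) * (c' (1 + N * (k - a - 1) + m) : ℝ)
        else P (v' (1 + N * (k - a - 1))) (q k)) else 0 with hc
  have hcU : ∀ i, i < b - a - 1 → a + 1 + i ∈ U →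
      c (a + 1 + i) = ∑ m ∈ range N, lam (e m) * (c' (1 + N * i + m) : ℝ) := by
    intro i hi hiU
    simp only [hc]
    rw [if_pos (by omega), if_pos hiU, show a + 1 + i - a - 1 = i by omega]
  have hcS : ∀ i, i < b - a - 1 → a + 1 + i ∉ U →
      c (a + 1 + i) = P (v' (1 + N * i)) (q (a + 1 + i)) := by
    intro i hi hiU
    simp only [hc]
    rw [if_pos (by omega), if_neg hiU, show a + 1 + i - a - 1 = i by omega]
  have hle : ∀ i, i ≤ b - a - 1 → 1 + N * i ≤ n' := by
    intro i hi
    have := Nat.mul_le_mul_left N hi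
    omega
  have hv0 : ∀ i, i ≤ b - a - 1 → 0 ≤ P (v' (1 + N * i)) ∧
      P (v' (1 + N * i)) ≤ P (Y (1 + N * i)) := by
    intro i hi
    obtain ⟨h1, h2⟩ := hv2 (1 + N * i) (by omega) (hle i hi)
    refine ⟨?_, P_mono hl1 h2⟩
    rw [← P_zero (B := B) (L := L)]
    exact P_mono hl1 h1
  -- the walk
  have hwalk : ∀ i, i ≤ b - a - 1 → P (v' (1 + N * i)) = geo cs (h (a + 1 + i))⁻¹
      (γ - ∑ j ∈ Ioo a (a + 1 + i), c j • geo cs (h j) (ee (q j))) := by
    intro i
    induction i with
    | zero =>
      intro _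
      have h1 : Ioo a (a + 1 + 0) = ∅ := by
        ext j; simp only [mem_Ioo, notMem_empty, iff_false]; omega
      rw [h1, sum_empty, sub_zero, mul_zero, add_zero, add_zero, hv1, hq0, P_single, hl2,
        one_smul, h0]
    | succ i ih =>
      intro hi
      have h1 := ih (by omega)
      have h2 : Ioo a (a + 1 + (i + 1)) = insert (a + 1 + i) (Ioo a (a + 1 + i)) := by
        ext j; simp only [mem_Ioo, mem_insert]; omega
      rw [h2, sum_insert (by simp)]
      have h3 : γ - (c (a + 1 + i) • geo cs (h (a + 1 + i)) (ee (q (a + 1 + i))) +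
          ∑ j ∈ Ioo a (a + 1 + i), c j • geo cs (h j) (ee (q j))) =
          (γ - ∑ j ∈ Ioo a (a + 1 + i), c j • geo cs (h j) (ee (q j))) -
            c (a + 1 + i) • geo cs (h (a + 1 + i)) (ee (q (a + 1 + i))) := by abel
      rw [h3, show a + 1 + (i + 1) = a + 1 + i + 1 by ring,
        show 1 + N * (i + 1) = 1 + N * i + N by ring]
      by_cases hk : a + 1 + i ∈ U
      · have h4 := P_block hl3 e N he hsur hsum (q (a + 1 + i)) (fun m => v' (1 + N * i + m))
          (fun m => c' (1 + N * i + m)) (fun m hm => by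
            have h5 := ((hv3 (1 + N * i + m) (by omega) (hlt' i m hm (by omega))).2
              ((UU_at U a N i m hm).2 hk)).2.1
            rw [hq', qq_at q a N e i m hm, sr_sub] at h5
            exact h5)
        simp only [add_zero] at h4
        rw [h4, hU (a + 1 + i) (by omega) (by omega) hk, geo_step, map_sub (geo cs _), map_smul,
          geo_inv_apply, ← h1, hcU i (by omega) hk]
      · have h4 := P_blockS e N hsur (q (a + 1 + i)) (fun m => v' (1 + N * i + m))
          (fun m hm => by
            have h5 := (hv3 (1 + N * i + m) (by omega) (hlt' i m hm (by omega))).1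
              (fun h => hk ((UU_at U a N i m hm).1 h))
            rw [hq', qq_at q a N e i m hm] at h5
            exact h5)
        simp only [add_zero] at h4
        rw [h4, hS (a + 1 + i) (by omega) (by omega) hk, map_sub (geo cs _), map_smul,
          geo_inv_apply, ← h1, hcS i (by omega) hk]
  refine ⟨c, ?_, ?_, ?_, ?_⟩
  · -- nonnegativity
    intro k
    by_cases hk : a < k ∧ k < b
    · obtain ⟨i, rfl⟩ : ∃ i, k = a + 1 + i := ⟨k - a - 1, by omega⟩
      by_cases hkU : a + 1 + i ∈ U
      · rw [hcU i (by omega) hkU]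
        refine sum_nonneg fun m hm => mul_nonneg (hl1 _).le ?_
        have hm' := mem_range.1 hm
        exact_mod_cast ((hv3 (1 + N * i + m) (by omega) (hlt' i m hm' (by omega))).2
              ((UU_at U a N i m hm').2 hkU)).1
      · rw [hcS i (by omega) hkU]
        exact (hv0 i (by omega)).1 _
    · simp only [hc]
      rw [if_neg hk]
  · -- the walk
    intro k hk1 hk2
    obtain ⟨i, rfl⟩ : ∃ i, k = a + 1 + i := ⟨k - a - 1, by omega⟩
    rw [← hwalk i (by omega), ← hPY i (by omega)]
    exact hv0 i (by omega)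
  · intro k hk1 hk2 hkU
    obtain ⟨i, rfl⟩ : ∃ i, k = a + 1 + i := ⟨k - a - 1, by omega⟩
    rw [← hwalk i (by omega), hcS i (by omega) hkU]
  · -- births
    intro k hk1 hk2 hkU hck
    obtain ⟨i, rfl⟩ : ∃ i, k = a + 1 + i := ⟨k - a - 1, by omega⟩
    rw [hcU i (by omega) hkU] at hck
    obtain ⟨m, hm, hcm⟩ := exists_ne_zero_of_sum_ne_zero hck
    have hm' := mem_range.1 hm
    have hcm' : c' (1 + N * i + m) ≠ 0 := by
      intro h1
      apply hcm
      rw [h1]
      simp
    obtain ⟨i', hi1, hi2, hi3, hi4⟩ := ((hv3 (1 + N * i + m) (by omega)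
      (hlt' i m hm' (by omega))).2 ((UU_at U a N i m hm').2 hkU)).2.2 hcm'
    obtain ⟨i2, c2, hc2, rfl⟩ := hpos i' hi1
    rw [hU', UU_at U a N i2 c2 hc2] at hi3
    set T : ℕ → B × Idx L → ℤ :=
      Qv.Gph.tr (unf M L) q' U' (1 + N * i2 + c2) (Pi.single (q' (1 + N * i2 + c2)) 1) with hT
    have hTU : ∀ k, 1 + N * i2 + c2 < k → k ∈ U' → T (k + 1) = (unf M L).sr (q' k) (T k) := by
      intro k h1 h2
      exact if_pos ⟨h1, h2⟩
    have hTS : ∀ k, ¬ (1 + N * i2 + c2 < k ∧ k ∈ U') → T (k + 1) = T k := by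
      intro k h1
      exact if_neg h1
    have hT1 : ∀ k, k ≤ 1 + N * i2 + c2 + 1 → T k = Pi.single (q' (1 + N * i2 + c2)) 1 := by
      intro k
      induction k with
      | zero => intro _; rfl
      | succ k ih =>
        intro hk
        rw [hTS k (by omega), ih (by omega)]
    have hqi2 : q' (1 + N * i2 + c2) = (q (a + 1 + i2), e c2) := qq_at q a N e i2 c2 hc2
    have hqi : q' (1 + N * i + m) = (q (a + 1 + i), e m) := qq_at q a N e i m hm'
    have hT2 : T (1 + N * i2 + (c2 + 1)) = Pi.single (q (a + 1 + i2), e c2) 1 := by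
      rw [← hqi2]
      exact hT1 _ (by omega)
    have hi2i : i2 ≤ i := by
      by_contra hcon
      push Not at hcon
      have h5 := Nat.mul_le_mul_left N (Nat.succ_le_of_lt hcon)
      rw [Nat.succ_eq_add_one, mul_add, mul_one] at h5
      omega
    have hne2 : i2 ≠ i := by
      intro heq
      subst heq
      have h5 := outblock e N he (q (a + 1 + i2)) (fun m => T (1 + N * i2 + m)) c2 m hm'.le
        (fun m1 hm1 hm2 => by
          have h6 := hTU (1 + N * i2 + m1) (by omega)
            ((UU_at U a N i2 m1 (by omega)).2 hi3)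
          rw [hq', qq_at q a N e i2 m1 (by omega)] at h6
          exact h6) hT2 m (by omega) le_rfl
      have h6 : (Pi.single (q (a + 1 + i2), e c2) 1 : B × Idx L → ℤ) =
          Pi.single (q (a + 1 + i2), e m) 1 := by
        rw [← hqi]
        exact h5.symm.trans hi4
      have h7 := congrFun h6 (q (a + 1 + i2), e c2)
      rw [Pi.single_eq_same] at h7
      have h8 : ((q (a + 1 + i2), e c2) : B × Idx L) ≠ (q (a + 1 + i2), e m) := by
        intro h9
        have := he c2 hc2 m hm' (congrArg Prod.snd h9)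
        omega
      rw [Pi.single_eq_of_ne h8] at h7
      exact one_ne_zero h7
    have hi2lt : i2 < i := lt_of_le_of_ne hi2i hne2
    -- the end of the block of `i2`
    have h5 : T (1 + N * (i2 + 1)) = Pi.single (q (a + 1 + i2), e c2) 1 := by
      have h6 := outblock e N he (q (a + 1 + i2)) (fun m => T (1 + N * i2 + m)) c2 N le_rfl
        (fun m1 hm1 hm2 => by
          have h6 := hTU (1 + N * i2 + m1) (by omega)
            ((UU_at U a N i2 m1 hm1).2 hi3)
          rw [hq', qq_at q a N e i2 m1 hm1] at h6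
          exact h6) hT2 N hc2 le_rfl
      rw [show 1 + N * (i2 + 1) = 1 + N * i2 + N by ring]
      exact h6
    -- evolution
    have h6 := evolve cs hl3 e N he hsur hsum q U h a b hU hS (i2 + 1) (b - a - 1) (by omega) T
      (fun k hk1 _ hk => hTU k (by
        have : N * (i2 + 1) = N * i2 + N := by ring
        omega) hk)
      (fun k _ _ hk => hTS k (fun h => hk h.2)) i (by omega) (by omega)
    rw [h5, P_single] at h6
    -- the beginning of the block of `i`
    have h7 : T (1 + N * i) = Pi.single (q (a + 1 + i), e m) 1 := by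
      have h8 := inblock e N he hsur (q (a + 1 + i)) (fun m => T (1 + N * i + m)) m hm'
        (fun m1 hm1 => by
          have h9 := hTU (1 + N * i + m1) (by
            have h10 := Nat.mul_le_mul_left N (Nat.succ_le_of_lt hi2lt)
            rw [Nat.succ_eq_add_one, mul_add, mul_one] at h10
            omega) ((UU_at U a N i m1 (by omega)).2 hkU)
          rw [hq', qq_at q a N e i m1 (by omega)] at h9
          exact h9) (by
          rw [← hqi]
          exact hi4)
      exact h8
    rw [h7, P_single] at h6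
    have h8 : geo cs ((h (a + 1 + i))⁻¹ * h (a + 1 + (i2 + 1))) (lam (e c2) • ee (q (a + 1 + i2))) =
        lam (e m) • ee (q (a + 1 + i)) := by
      rw [map_mul, Module.End.mul_apply, h6]
    have h9 := pos_eq cs hB _ _ _ (hl1 (e c2)) (hl1 (e m)) h8
    rw [h9, map_smul, map_smul] at h6
    have h10 := smul_right_injective (B → ℝ) (hl1 (e m)).ne' h6
    refine ⟨a + 1 + i2, by omega, by omega, hi3, ?_⟩
    rw [h10, geo_apply_inv, show a + 1 + (i2 + 1) = a + 1 + i2 + 1 by ring,
      hU (a + 1 + i2) (by omega) (by omega) hi3, map_mul, Module.End.mul_apply, geo_simple,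
      sg_ee_self, map_neg]

end Pool.Agent.W193.SC

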